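import Pool.Agent.H16.FK.TargetsB

/-!
# TAM: symmetric nonsplit ultrafilters with tame proper parts are tame
-/

set_option autoImplicit false
set_option linter.unusedVariables false

namespace Pool.Agent.H13.FKI

open Set Pool.Agent.H75.HCI Pool.Agent.H41.HI Pool.Agent.H16.FK

theorem limU_const {I : Type} (UU : Ultrafilter ℕ) (V : Ultrafilter (I → ℕ)) :
    limU UU (fun _ => V) = V := by
  apply Ultrafilter.coe_injective
  change Filter.bind (UU : Filter ℕ) (fun _ => (V : Filter (I → ℕ))) = V
  ext s
  rw [Filter.mem_bind']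
  exact Filter.eventually_const

theorem pf_TAM (hFNL : T_FNL) (hTBM : T_TBM) (hNDU : T_NDU) (hTYR : T_TYR) : T_TAM := by
  intro C r k M hAr hSm hk V hij hnp hpar hns hsym
  refine hNDU C (Fin k) M V (hFNL C M hSm) inferInstance hnp ?_
  intro mu U hUn hUi
  funext l
  classical
  -- the parameters
  obtain ⟨m, c, hc, l', rfl⟩ : ∃ (m : ℕ) (c : Fin m → ℕ), Function.Injective c ∧
      ∃ l' : List (Fin m ⊕ (Fin k ⊕ Fin mu)), l'.map (Sum.map c id) = l := by
    let S : Finset ℕ := (l.filterMap Sum.getLeft?).toFinset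
    refine ⟨S.card, fun i => ((S.equivFin.symm i : S) : ℕ), ?_, ?_⟩
    · intro i j h
      exact S.equivFin.symm.injective (Subtype.ext h)
    · have h : l ∈ Set.range (List.map (Sum.map (fun i => ((S.equivFin.symm i : S) : ℕ))
          (id : Fin k ⊕ Fin mu → Fin k ⊕ Fin mu))) := by
        rw [Set.range_list_map]
        intro x hx
        cases x with
        | inl n =>
          have hn : n ∈ S := by
            simp only [S, List.mem_toFinset, List.mem_filterMap]
            exact ⟨Sum.inl n, hx, rfl⟩
          exact ⟨Sum.inl (S.equivFin ⟨n, hn⟩), by simp⟩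
        | inr q => exact ⟨Sum.inr q, rfl⟩
      exact h
  have hlim := limU_const (Filter.hyperfilter ℕ) V
  have h := hTBM C r k m mu M hAr hSm hk (Filter.hyperfilter ℕ) (fun _ => V)
    (fun n => Nat.hyperfilter_le_atTop (Filter.eventually_ge_atTop n))
    (Filter.Eventually.of_forall fun _ => ⟨hij, hnp⟩)
    (fun a ha hak => ⟨typ M (re V a.get), Filter.Eventually.of_forall fun _ =>
      ⟨hpar a ha hak, rfl⟩⟩)
    (by rw [hlim]; exact hns) (by rw [hlim]; exact hsym) (fun _ => c) (fun _ => U)
    (Filter.Eventually.of_forall fun _ => hc)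
    (Filter.Eventually.of_forall fun _ => ⟨hUi, hUn⟩) l'
  rw [hlim] at h
  exact Filter.eventually_const.1 h

end Pool.Agent.H13.FKI
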